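import Mathlib
import Pool.Agent.Lib.MP_ee01d4_al.Models

set_option autoImplicit false

open scoped Pointwise

namespace Pool.Agent.Results.MP_ee01d4_al.UniqueProduct

/-- `F(G)`: the set of all finite nonempty subsets of `G`. -/
def F (G : Type*) : Type _ := {X : Set G // X.Finite ∧ X.Nonempty}

/-- `F(G)` is a monoid under the product `X Y = {x y : x ∈ X, y ∈ Y}`, with identity `{1}`. -/
instance (G : Type*) [Group G] : Monoid (F G) where
  mul X Y := ⟨{g | ∃ x ∈ X.1, ∃ y ∈ Y.1, x * y = g},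
    (X.2.1.mul Y.2.1), (X.2.2.mul Y.2.2)⟩
  one := ⟨{1}, Set.finite_singleton 1, Set.singleton_nonempty 1⟩
  mul_assoc X Y Z := Subtype.ext (mul_assoc X.1 Y.1 Z.1)
  one_mul X := Subtype.ext (one_mul X.1)
  mul_one X := Subtype.ext (mul_one X.1)

/-- The element `{g}` of `F(G)`. -/
def F.single {G : Type*} (g : G) : F G := ⟨{g}, Set.finite_singleton g, Set.singleton_nonempty g⟩

/-- A retraction of `G`: a monoid homomorphism `σ : F(G) → G` with `σ({g}) = g` for all `g`. -/
def IsRetraction {G : Type*} [Group G] (σ : F G →* G) : Prop := ∀ g : G, σ (F.single g) = g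

/-- `G` is a unique product group: for all finite nonempty `X, Y ⊆ G` some `g ∈ G` has exactly one
representation `g = x y` with `x ∈ X` and `y ∈ Y`. -/
def IsUniqueProductGroup (G : Type*) [Group G] : Prop :=
  ∀ X Y : Set G, X.Finite → X.Nonempty → Y.Finite → Y.Nonempty →
    ∃ g : G, ∃! p : G × G, p.1 ∈ X ∧ p.2 ∈ Y ∧ p.1 * p.2 = g

/-- Every group which has a retraction is a unique product group. -/
theorem result.{u} (G : Type u) [Group G] (σ : F G →* G) (hσ : IsRetraction σ) :
    IsUniqueProductGroup G := by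
  classical
  let τ : Finset G → G := fun X =>
    if h : X.Nonempty then σ ⟨(X : Set G), X.finite_toSet, h⟩ else 1
  have hτ : Lib.MP_ee01d4_al.IsRetraction τ := by
    constructor
    · intro g
      have h1 : τ {g} = σ ⟨(({g} : Finset G) : Set G), Finset.finite_toSet _,
        Finset.singleton_nonempty g⟩ := dif_pos (Finset.singleton_nonempty g)
      rw [h1]
      have h2 : (⟨(({g} : Finset G) : Set G), Finset.finite_toSet _,
          Finset.singleton_nonempty g⟩ : F G) = F.single g := Subtype.ext (by simp [F.single])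
      rw [h2, hσ g]
    · intro X Y hX hY
      let mk : (Z : Finset G) → Z.Nonempty → F G := fun Z hZ => ⟨(Z : Set G), Z.finite_toSet, hZ⟩
      have h1 : τ X = σ (mk X hX) := dif_pos hX
      have h2 : τ Y = σ (mk Y hY) := dif_pos hY
      have h3 : τ (X * Y) = σ (mk (X * Y) (hX.mul hY)) := dif_pos (hX.mul hY)
      have h4 : mk (X * Y) (hX.mul hY) = mk X hX * mk Y hY := by
        apply Subtype.ext
        change ((X * Y : Finset G) : Set G) = {g | ∃ x ∈ (X : Set G), ∃ y ∈ (Y : Set G), x * y = g}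
        ext g
        rw [Finset.mem_coe, Finset.mem_mul]
        rfl
      rw [h1, h2, h3, h4, map_mul]
  intro X Y hX hX' hY hY'
  obtain ⟨a, ha, b, hb, hab⟩ := Lib.MP_ee01d4_al.exists_uniqueMul hτ _ hX.toFinset hY.toFinset rfl
    (hX.toFinset_nonempty.mpr hX') (hY.toFinset_nonempty.mpr hY')
  refine ⟨a * b, (a, b), ⟨hX.mem_toFinset.mp ha, hY.mem_toFinset.mp hb, rfl⟩, ?_⟩
  rintro ⟨x, y⟩ ⟨hx, hy, hxy⟩
  obtain ⟨h1, h2⟩ := hab (hX.mem_toFinset.mpr hx) (hY.mem_toFinset.mpr hy) hxy
  exact Prod.ext h1 h2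

end Pool.Agent.Results.MP_ee01d4_al.UniqueProduct
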